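import Mathlib

/-!
# Rounding a family of monotone functions along a binary tree

The combinatorial heart of the two-dimensional result: a real matrix of masses can be rounded to
an integer matrix so that all anchored rectangle sums change by at most half the depth of the tree.
-/

namespace Pool.Agent.H460SD

open Finset

/-- monotone and 1-Lipschitz reparametrisation -/
theorem exists_psi (A B : ℕ → ℝ) (hA : Monotone A) (hB : Monotone B) (hA0 : A 0 = 0)
    (hB0 : B 0 = 0) : ∃ Ψ : ℝ → ℝ, Monotone Ψ ∧ (∀ s s', s ≤ s' → Ψ s' ≤ Ψ s + (s' - s)) ∧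
      Ψ 0 = 0 ∧ ∀ t, Ψ (A t + B t) = A t := by
  have hbd : ∀ s, BddBelow (Set.range fun t => A t + max (s - (A t + B t)) 0) := by
    intro s
    refine ⟨0, ?_⟩
    rintro _ ⟨t, rfl⟩
    have := hA (Nat.zero_le t)
    rw [hA0] at this
    have h2 : 0 ≤ max (s - (A t + B t)) 0 := le_max_right _ _
    dsimp only
    linarith
  refine ⟨fun s => ⨅ t, (A t + max (s - (A t + B t)) 0), ?_, ?_, ?_, ?_⟩
  · intro s s' hs
    refine ciInf_mono (hbd s) fun t => ?_
    have : max (s - (A t + B t)) 0 ≤ max (s' - (A t + B t)) 0 := max_le_max (by linarith) le_rfl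
    linarith
  · intro s s' hs
    rw [← sub_le_iff_le_add]
    refine le_ciInf fun t => ?_
    have h1 := ciInf_le (hbd s') t
    have h2 : max (s' - (A t + B t)) 0 ≤ max (s - (A t + B t)) 0 + (s' - s) := by
      refine max_le ?_ ?_
      · have := le_max_left (s - (A t + B t)) 0
        linarith
      · have := le_max_right (s - (A t + B t)) 0
        linarith
    linarith
  · dsimp only
    refine le_antisymm ?_ (le_ciInf fun t => ?_)
    · refine (ciInf_le (hbd 0) 0).trans ?_
      simp [hA0, hB0]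
    · have := hA (Nat.zero_le t)
      rw [hA0] at this
      have h2 : 0 ≤ max (0 - (A t + B t)) 0 := le_max_right _ _
      linarith
  · intro t
    dsimp only
    refine le_antisymm ?_ (le_ciInf fun t' => ?_)
    · refine (ciInf_le (hbd _) t).trans ?_
      simp
    · rcases le_total t t' with h | h
      · have h1 := hA h
        have h2 : 0 ≤ max (A t + B t - (A t' + B t')) 0 := le_max_right _ _
        linarith
      · have h1 := hB h
        have h2 := le_max_left (A t + B t - (A t' + B t')) 0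
        linarith

/-- rounding to the nearest integer -/
noncomputable def rd (x : ℝ) : ℤ := ⌊x + 1/2⌋

theorem rd_err (x : ℝ) : |(rd x : ℝ) - x| ≤ 1/2 := by
  unfold rd
  have h1 := Int.floor_le (x + 1/2)
  have h2 := Int.lt_floor_add_one (x + 1/2)
  rw [abs_le]
  constructor <;> linarith

theorem rd_mono : Monotone rd := fun x y h => Int.floor_le_floor (by linarith)

theorem rd_add (x : ℝ) (n : ℤ) : rd (x + n) = rd x + n := by
  unfold rd
  rw [show x + (n:ℝ) + 1/2 = (x + 1/2) + n by ring, Int.floor_add_intCast]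

theorem rd_zero : rd 0 = 0 := by
  unfold rd; norm_num

theorem rd_int (n : ℤ) : rd n = n := by
  have := rd_add 0 n
  rw [zero_add, rd_zero, zero_add] at this
  exact this

theorem exists_kappa (Ψ : ℝ → ℝ) (h1 : Monotone Ψ) (h2 : ∀ s s', s ≤ s' → Ψ s' ≤ Ψ s + (s' - s))
    (G F : ℝ) : ∃ κ ∈ Set.Icc (0:ℝ) 1, Ψ G - Ψ F = κ * (G - F) := by
  rcases lt_trichotomy G F with h | h | h
  · refine ⟨(Ψ G - Ψ F) / (G - F), ⟨?_, ?_⟩, ?_⟩
    · exact div_nonneg_of_nonpos (by linarith [h1 h.le]) (by linarith)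
    · rw [div_le_one_of_neg (by linarith)]
      linarith [h2 G F h.le]
    · rw [div_mul_cancel₀]; linarith
  · refine ⟨0, ⟨le_rfl, zero_le_one⟩, ?_⟩
    rw [h]; ring
  · refine ⟨(Ψ G - Ψ F) / (G - F), ⟨?_, ?_⟩, ?_⟩
    · exact div_nonneg (by linarith [h1 h.le]) (by linarith)
    · rw [div_le_one (by linarith)]
      linarith [h2 F G h.le]
    · rw [div_mul_cancel₀]; linarith

/-- **The core rounding lemma.** -/
theorem core (h : ℕ) : ∀ (F : ℕ → ℕ → ℝ), (∀ i, Monotone (F i)) → (∀ i, F i 0 = 0) →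
    ∀ G : ℕ → ℤ, Monotone G → G 0 = 0 →
    ∃ g : ℕ → ℕ → ℤ, (∀ i, Monotone (g i)) ∧ (∀ i, g i 0 = 0) ∧
      (∀ t, ∑ i ∈ range (2 ^ h), g i t = G t) ∧
      ∀ m ≤ 2 ^ h, ∀ t, ∃ c ∈ Set.Icc (0:ℝ) 1,
        |∑ i ∈ range m, ((g i t : ℝ) - F i t) - c * ((G t : ℝ) - ∑ i ∈ range (2 ^ h), F i t)| ≤
          h / 2 := by
  induction h with
  | zero =>
    intro F hF hF0 G hG hG0
    refine ⟨fun _ => G, fun _ => hG, fun _ => hG0, fun t => by simp, fun m hm t => ?_⟩
    have : m = 0 ∨ m = 1 := by simp at hm; omega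
    rcases this with rfl | rfl
    · exact ⟨0, ⟨le_rfl, zero_le_one⟩, by simp⟩
    · exact ⟨1, ⟨zero_le_one, le_rfl⟩, by simp⟩
  | succ h ih =>
    intro F hF hF0 G hG hG0
    set A : ℕ → ℝ := fun t => ∑ i ∈ range (2 ^ h), F i t with hAdef
    set B : ℕ → ℝ := fun t => ∑ i ∈ range (2 ^ h), F (2 ^ h + i) t with hBdef
    have hA : Monotone A := fun s t hst => Finset.sum_le_sum fun i _ => hF i hst
    have hB : Monotone B := fun s t hst => Finset.sum_le_sum fun i _ => hF _ hst
    have hA0 : A 0 = 0 := Finset.sum_eq_zero fun i _ => hF0 i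
    have hB0 : B 0 = 0 := Finset.sum_eq_zero fun i _ => hF0 _
    have hAB : ∀ t, ∑ i ∈ range (2 ^ (h+1)), F i t = A t + B t := by
      intro t
      rw [pow_succ, mul_two, Finset.sum_range_add]
    obtain ⟨Ψ, hΨ1, hΨ2, hΨ0, hΨ⟩ := exists_psi A B hA hB hA0 hB0
    set L : ℕ → ℤ := fun t => rd (Ψ (G t)) with hLdef
    have hL : Monotone L := fun s t hst => rd_mono (hΨ1 (by exact_mod_cast hG hst))
    have hL0 : L 0 = 0 := by simp only [hLdef, hG0, Int.cast_zero, hΨ0, rd_zero]
    set R : ℕ → ℤ := fun t => G t - L t with hRdef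
    have hR : Monotone R := by
      intro s t hst
      have h1 : (G s : ℝ) ≤ G t := by exact_mod_cast hG hst
      have h2 := hΨ2 _ _ h1
      have h3 : rd (Ψ (G t)) ≤ rd (Ψ (G s) + ((G t - G s : ℤ) : ℝ)) := by
        refine rd_mono ?_
        push_cast
        exact h2
      rw [rd_add] at h3
      simp only [hRdef, hLdef]
      linarith
    have hR0 : R 0 = 0 := by simp only [hRdef, hL0, hG0, sub_zero]
    obtain ⟨gL, hgL1, hgL2, hgL3, hgL4⟩ := ih F hF hF0 L hL hL0
    obtain ⟨gR, hgR1, hgR2, hgR3, hgR4⟩ := ih (fun i => F (2 ^ h + i)) (fun i => hF _)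
      (fun i => hF0 _) R hR hR0
    have hp : 2 ^ (h+1) = 2 ^ h + 2 ^ h := by rw [pow_succ, mul_two]
    have hgl : ∀ i < 2 ^ h, (fun t => if i < 2 ^ h then gL i t else gR (i - 2 ^ h) t) = gL i := by
      intro i hi; funext t; rw [if_pos hi]
    refine ⟨fun i t => if i < 2 ^ h then gL i t else gR (i - 2 ^ h) t, ?_, ?_, ?_, ?_⟩
    · intro i s t hst
      dsimp only
      split_ifs
      · exact hgL1 i hst
      · exact hgR1 _ hst
    · intro i
      dsimp only
      split_ifs
      · exact hgL2 i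
      · exact hgR2 _
    · intro t
      rw [hp, Finset.sum_range_add]
      have e1 : ∑ x ∈ range (2 ^ h), (if x < 2 ^ h then gL x t else gR (x - 2 ^ h) t) = L t := by
        rw [← hgL3 t]
        refine Finset.sum_congr rfl fun i hi => ?_
        rw [if_pos (Finset.mem_range.mp hi)]
      have e2 : ∑ x ∈ range (2 ^ h), (if 2 ^ h + x < 2 ^ h then gL (2 ^ h + x) t
          else gR (2 ^ h + x - 2 ^ h) t) = R t := by
        rw [← hgR3 t]
        refine Finset.sum_congr rfl fun i hi => ?_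
        rw [if_neg (by omega), Nat.add_sub_cancel_left]
      rw [e1, e2]
      simp only [hRdef]
      ring
    · intro m hm t
      rw [hAB t]
      obtain ⟨κ, ⟨hκ0, hκ1⟩, hκ⟩ := exists_kappa Ψ hΨ1 hΨ2 (G t) (A t + B t)
      rw [hΨ t] at hκ
      set ρ : ℝ := (L t : ℝ) - Ψ (G t) with hρ
      have hρ1 : |ρ| ≤ 1/2 := rd_err _
      have hρ2 := abs_le.mp hρ1
      have eL : (L t : ℝ) - A t = κ * ((G t : ℝ) - (A t + B t)) + ρ := by
        rw [hρ, ← hκ]; ring
      have eR : (R t : ℝ) - B t = (1 - κ) * ((G t : ℝ) - (A t + B t)) - ρ := by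
        have : (R t : ℝ) = G t - L t := by simp only [hRdef]; push_cast; ring
        rw [this]
        have : (L t : ℝ) = A t + (κ * ((G t : ℝ) - (A t + B t)) + ρ) := by rw [← eL]; ring
        rw [this]; ring
      set e : ℝ := (G t : ℝ) - (A t + B t) with he
      rcases le_total m (2 ^ h) with hm1 | hm1
      · obtain ⟨c, ⟨hc0, hc1⟩, hc⟩ := hgL4 m hm1 t
        refine ⟨c * κ, ⟨mul_nonneg hc0 hκ0, mul_le_one₀ hc1 hκ0 hκ1⟩, ?_⟩
        have e1 : ∑ i ∈ range m, (((if i < 2 ^ h then gL i t else gR (i - 2 ^ h) t : ℤ) : ℝ) - F i t)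
            = ∑ i ∈ range m, ((gL i t : ℝ) - F i t) := by
          refine Finset.sum_congr rfl fun i hi => ?_
          rw [if_pos (lt_of_lt_of_le (Finset.mem_range.mp hi) hm1)]
        rw [e1]
        have e2 : (L t : ℝ) - ∑ i ∈ range (2 ^ h), F i t = κ * e + ρ := eL
        rw [e2] at hc
        have hc' := abs_le.mp hc
        rw [abs_le]
        push_cast
        constructor
        · nlinarith [mul_le_mul_of_nonneg_left hρ2.1 hc0, mul_le_mul_of_nonneg_left hρ2.2 hc0]
        · nlinarith [mul_le_mul_of_nonneg_left hρ2.1 hc0, mul_le_mul_of_nonneg_left hρ2.2 hc0]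
      · obtain ⟨k, rfl⟩ := Nat.exists_eq_add_of_le hm1
        obtain ⟨c, ⟨hc0, hc1⟩, hc⟩ := hgR4 k (by omega) t
        refine ⟨κ + c * (1 - κ), ⟨?_, ?_⟩, ?_⟩
        · have := mul_nonneg hc0 (sub_nonneg.mpr hκ1); linarith
        · nlinarith
        have e1 : ∑ i ∈ range (2 ^ h + k), (((if i < 2 ^ h then gL i t else gR (i - 2 ^ h) t : ℤ) : ℝ) - F i t)
            = ((L t : ℝ) - A t) + ∑ i ∈ range k, ((gR i t : ℝ) - F (2 ^ h + i) t) := by
          rw [Finset.sum_range_add]
          congr 1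
          · rw [← hgL3 t]
            push_cast
            rw [hAdef, ← Finset.sum_sub_distrib]
            refine Finset.sum_congr rfl fun i hi => ?_
            rw [if_pos (Finset.mem_range.mp hi)]
          · refine Finset.sum_congr rfl fun i hi => ?_
            rw [if_neg (by omega), Nat.add_sub_cancel_left]
        rw [e1, eL]
        have e2 : (R t : ℝ) - ∑ i ∈ range (2 ^ h), F (2 ^ h + i) t = (1 - κ) * e - ρ := eR
        rw [e2] at hc
        have hc' := abs_le.mp hc
        have hc1' : 0 ≤ 1 - c := by linarith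
        rw [abs_le]
        push_cast
        constructor
        · nlinarith [mul_le_mul_of_nonneg_left hρ2.1 hc1', mul_le_mul_of_nonneg_left hρ2.2 hc1']
        · nlinarith [mul_le_mul_of_nonneg_left hρ2.1 hc1', mul_le_mul_of_nonneg_left hρ2.2 hc1']

end Pool.Agent.H460SD
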