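import Pool.Agent.H460SD.Quant

namespace Pool.Agent.H460SD

open MeasureTheory Set

theorem cutoff (P : ℕ → Prop) (hP : ∀ i j, i ≤ j → P j → P i) (M : ℕ) :
    ∃ m ≤ M, ∀ i < M, (P i ↔ i < m) := by
  induction M with
  | zero => exact ⟨0, le_rfl, fun i hi => by omega⟩
  | succ M ih =>
    by_cases h : P M
    · exact ⟨M+1, le_rfl, fun i hi => ⟨fun _ => hi, fun _ => hP i M (by omega) h⟩⟩
    · obtain ⟨m, hm, hm'⟩ := ih
      refine ⟨m, by omega, fun i hi => ?_⟩
      rcases Nat.lt_succ_iff_lt_or_eq.mp hi with h1 | rfl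
      · exact hm' i h1
      · exact ⟨fun hc => absurd hc h, fun hc => by omega⟩

/-- enumerate a multiset by `Fin N` -/
theorem enum_multiset {α : Type*} (S : Multiset α) (N : ℕ) (hS : S.card = N) :
    ∃ x : Fin N → α, (Finset.univ : Finset (Fin N)).val.map x = S := by
  induction S using Quotient.inductionOn with
  | h l =>
    subst hS
    refine ⟨fun n => l.get n, ?_⟩
    show (Finset.univ : Finset (Fin l.length)).val.map (fun n => l.get n) = (l : Multiset α)
    rw [Fin.univ_val_map, List.ofFn_get]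

theorem count_enum {α : Type*} (S : Multiset α) (N : ℕ) (x : Fin N → α)
    (hx : (Finset.univ : Finset (Fin N)).val.map x = S) (p : α → Prop) [DecidablePred p] :
    (Finset.univ.filter (fun n => p (x n))).card = S.countP p := by
  rw [← hx, Multiset.countP_map, Finset.card_def, Finset.filter_val]

theorem countP_sum' {α ι : Type*} (s : Finset ι) (f : ι → Multiset α) (p : α → Prop)
    [DecidablePred p] : (∑ i ∈ s, f i).countP p = ∑ i ∈ s, (f i).countP p := by
  classical
  induction s using Finset.induction_on with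
  | empty => simp
  | insert a s ha ih => rw [Finset.sum_insert ha, Finset.sum_insert ha, Multiset.countP_add, ih]

/-- **Two-dimensional rounding of a probability measure.** -/
theorem main2 (μ : Measure (Fin 2 → ℝ)) [IsProbabilityMeasure μ]
    (hμ : μ (Icc (0 : Fin 2 → ℝ) 1)ᶜ = 0) (N h : ℕ) (hN : 0 < N) (hh : N ≤ 2 ^ h) :
    ∃ x : Fin N → (Fin 2 → ℝ), (∀ n, x n ∈ Icc (0 : Fin 2 → ℝ) 1) ∧ ∀ y : Fin 2 → ℝ,
      |((Finset.univ.filter (fun n : Fin N => ∀ i, x n i < y i)).card : ℝ) -
        N * (μ {z : Fin 2 → ℝ | ∀ i, z i < y i}).toReal| ≤ ((h:ℝ) + 1) / 2 + 2 := by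
  classical
  have hNr : (0:ℝ) < N := by exact_mod_cast hN
  -- marginals
  have hm0 : Measurable (fun z : Fin 2 → ℝ => z 0) := measurable_pi_apply 0
  have hm1 : Measurable (fun z : Fin 2 → ℝ => z 1) := measurable_pi_apply 1
  set ν0 : Measure ℝ := μ.map (fun z => z 0) with hν0
  set ν1 : Measure ℝ := μ.map (fun z => z 1) with hν1
  have : IsProbabilityMeasure ν0 := Measure.isProbabilityMeasure_map hm0.aemeasurable
  have : IsProbabilityMeasure ν1 := Measure.isProbabilityMeasure_map hm1.aemeasurable
  have hs0 : ν0 (Icc 0 1)ᶜ = 0 := by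
    rw [hν0, Measure.map_apply hm0 measurableSet_Icc.compl]
    refine measure_mono_null (fun z hz => ?_) hμ
    intro hz2
    exact hz ⟨hz2.1 0, hz2.2 0⟩
  have hs1 : ν1 (Icc 0 1)ᶜ = 0 := by
    rw [hν1, Measure.map_apply hm1 measurableSet_Icc.compl]
    refine measure_mono_null (fun z hz => ?_) hμ
    intro hz2
    exact hz ⟨hz2.1 1, hz2.2 1⟩
  obtain ⟨c, hc, hcI, hc1, hc2, hc3⟩ := quantile ν0 hs0 N hN
  obtain ⟨d, hd, hdI, hd1, hd2, hd3⟩ := quantile ν1 hs1 N hN
  -- cut sets
  let C0 : ℕ → Set ℝ := fun m => {x | 1 ≤ m ∧ x ≤ c m}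
  let C1 : ℕ → Set ℝ := fun m => {x | 1 ≤ m ∧ x ≤ d m}
  have hC0m : ∀ m, MeasurableSet (C0 m) := by
    intro m
    by_cases hm : 1 ≤ m
    · have : C0 m = Iic (c m) := by ext x; simp [C0, hm]
      rw [this]; exact measurableSet_Iic
    · have : C0 m = ∅ := by ext x; simp [C0, hm]
      rw [this]; exact MeasurableSet.empty
  have hC1m : ∀ m, MeasurableSet (C1 m) := by
    intro m
    by_cases hm : 1 ≤ m
    · have : C1 m = Iic (d m) := by ext x; simp [C1, hm]
      rw [this]; exact measurableSet_Iic
    · have : C1 m = ∅ := by ext x; simp [C1, hm]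
      rw [this]; exact MeasurableSet.empty
  have hC0mono : Monotone C0 := fun m m' hmm x hx => ⟨hx.1.trans hmm, hx.2.trans (hc hmm)⟩
  have hC1mono : Monotone C1 := fun m m' hmm x hx => ⟨hx.1.trans hmm, hx.2.trans (hd hmm)⟩
  let A : ℕ → Set (Fin 2 → ℝ) := fun m => {z | z 0 ∈ C0 m}
  let B : ℕ → Set (Fin 2 → ℝ) := fun m => {z | z 1 ∈ C1 m}
  have hAm : ∀ m, MeasurableSet (A m) := fun m => hm0 (hC0m m)
  have hBm : ∀ m, MeasurableSet (B m) := fun m => hm1 (hC1m m)
  have hAmono : Monotone A := fun m m' hmm z hz => hC0mono hmm hz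
  have hBmono : Monotone B := fun m m' hmm z hz => hC1mono hmm hz
  have hA0 : A 0 = ∅ := by ext z; simp [A, C0]
  have hB0 : B 0 = ∅ := by ext z; simp [B, C1]
  let F : ℕ → ℕ → ℝ := fun i j => N * μ.real ((A (i+1) \ A i) ∩ B j)
  have hF : ∀ i, Monotone (F i) := fun i j j' hj =>
    mul_le_mul_of_nonneg_left (measureReal_mono (inter_subset_inter_right _ (hBmono hj))) hNr.le
  have hF0 : ∀ i, F i 0 = 0 := by
    intro i
    simp only [F, hB0, inter_empty, measureReal_empty, mul_zero]
  have hFsum : ∀ m j, ∑ i ∈ Finset.range m, F i j = N * μ.real (A m ∩ B j) := by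
    intro m j
    induction m with
    | zero => simp [hA0]
    | succ m ih =>
      rw [Finset.sum_range_succ, ih]
      have e : A (m+1) ∩ B j = (A m ∩ B j) ∪ ((A (m+1) \ A m) ∩ B j) := by
        ext z
        simp only [mem_inter_iff, mem_union, mem_sdiff]
        have := @hAmono m (m+1) (by omega) z
        tauto
      rw [e, measureReal_union _ (((hAm _).diff (hAm _)).inter (hBm _))]
      · simp only [F]; ring
      · rw [Set.disjoint_left]
        intro z hz hz2
        exact hz2.1.2 hz.1
  let G : ℕ → ℤ := fun j => rd (N * μ.real (B j))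
  have hG : Monotone G := fun j j' hj =>
    rd_mono (mul_le_mul_of_nonneg_left (measureReal_mono (hBmono hj)) hNr.le)
  have hG0 : G 0 = 0 := by
    simp only [G, hB0, measureReal_empty, mul_zero, rd_zero]
  have hfull0 : ∀ m, N ≤ m → μ (A m)ᶜ = 0 := by
    intro m hm
    refine measure_mono_null (fun z hz => ?_) hμ
    intro hz2
    refine hz ⟨by omega, ?_⟩
    rw [hc1 m hm]; exact hz2.2 0
  have hfull1 : ∀ m, N ≤ m → μ (B m)ᶜ = 0 := by
    intro m hm
    refine measure_mono_null (fun z hz => ?_) hμ
    intro hz2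
    refine hz ⟨by omega, ?_⟩
    rw [hd1 m hm]; exact hz2.2 1
  have hGN : G N = N := by
    have h1 : μ.real (B N) = 1 := by
      have h2 : μ.real (B N)ᶜ = 0 := by rw [measureReal_def, hfull1 N le_rfl]; rfl
      rw [probReal_compl_eq_one_sub (hBm N)] at h2
      linarith
    simp only [G, h1, mul_one]
    exact_mod_cast rd_int (N : ℤ)
  have hFtot : ∀ j, ∑ i ∈ Finset.range (2 ^ h), F i j = N * μ.real (B j) := by
    intro j
    rw [hFsum]
    congr 1
    refine measureReal_congr ?_
    have : μ (A (2^h))ᶜ = 0 := hfull0 _ hh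
    have h2 : A (2^h) =ᵐ[μ] univ := by
      rw [ae_eq_univ]; exact this
    have h3 := h2.inter (ae_eq_refl (B j))
    rwa [univ_inter] at h3
  obtain ⟨g, hg1, hg2, hg3, hg4⟩ := core h F hF hF0 G hG hG0
  -- error at the grid corners
  have hcorner : ∀ m ≤ 2 ^ h, ∀ j, |((∑ i ∈ Finset.range m, g i j : ℤ) : ℝ) - N * μ.real (A m ∩ B j)| ≤
      ((h:ℝ) + 1) / 2 := by
    intro m hm j
    obtain ⟨κ, ⟨hκ0, hκ1⟩, hκ⟩ := hg4 m hm j
    rw [hFtot j, Finset.sum_sub_distrib, hFsum] at hκ
    have hr := rd_err (N * μ.real (B j))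
    have hr2 := abs_le.mp hr
    have hκ' := abs_le.mp hκ
    have eG : (G j : ℝ) = (rd (N * μ.real (B j)) : ℝ) := rfl
    rw [eG] at hκ'
    push_cast
    rw [abs_le]
    constructor <;> nlinarith [mul_le_mul_of_nonneg_left hr2.1 hκ0, mul_le_mul_of_nonneg_left hr2.2 hκ0]
  -- the points
  let pt : ℕ → ℕ → (Fin 2 → ℝ) := fun i j => ![c (i+1), d (j+1)]
  let w : ℕ → ℕ → ℕ := fun i j => (g i (j+1) - g i j).toNat
  have hw : ∀ i j, ((w i j : ℕ) : ℤ) = g i (j+1) - g i j := by
    intro i j
    have : g i j ≤ g i (j+1) := hg1 i (Nat.le_succ j)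
    exact Int.toNat_of_nonneg (by linarith)
  let S : Multiset (Fin 2 → ℝ) := ∑ i ∈ Finset.range (2 ^ h), ∑ j ∈ Finset.range N,
    Multiset.replicate (w i j) (pt i j)
  have htel : ∀ i J, ∑ j ∈ Finset.range J, (g i (j+1) - g i j) = g i J := by
    intro i J
    rw [Finset.sum_range_sub, hg2, sub_zero]
  have hcard : S.card = N := by
    have h1 : (S.card : ℤ) = N := by
      simp only [S, Multiset.card_sum, Multiset.card_replicate]
      push_cast
      simp_rw [hw, htel]
      rw [hg3, hGN]
    exact_mod_cast h1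
  obtain ⟨x, hx⟩ := enum_multiset S N hcard
  refine ⟨x, ?_, ?_⟩
  · intro n
    have hmem : x n ∈ S := by
      rw [← hx]
      exact Multiset.mem_map_of_mem x (Finset.mem_univ n)
    simp only [S] at hmem
    rw [Multiset.mem_sum] at hmem
    obtain ⟨i, -, hmem⟩ := hmem
    rw [Multiset.mem_sum] at hmem
    obtain ⟨j, -, hmem⟩ := hmem
    have := Multiset.eq_of_mem_replicate hmem
    rw [this]
    constructor
    · intro k
      fin_cases k
      · exact (hcI _).1
      · exact (hdI _).1
    · intro k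
      fin_cases k
      · exact (hcI _).2
      · exact (hdI _).2
  · intro y
    obtain ⟨m, hm, hmc⟩ := cutoff (fun i => c (i+1) < y 0)
      (fun i j hij hj => lt_of_le_of_lt (hc (by omega)) hj) (2 ^ h)
    obtain ⟨J, hJ, hJc⟩ := cutoff (fun i => d (i+1) < y 1)
      (fun i j hij hj => lt_of_le_of_lt (hd (by omega)) hj) N
    rw [count_enum S N x hx (fun z => ∀ i, z i < y i)]
    have hcount : ((S.countP (fun z => ∀ i, z i < y i) : ℕ) : ℤ) = ∑ i ∈ Finset.range m, g i J := by
      simp only [S]
      rw [countP_sum']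
      have e1 : ∀ i ∈ Finset.range (2 ^ h), (∑ j ∈ Finset.range N,
          Multiset.replicate (w i j) (pt i j)).countP (fun z => ∀ i, z i < y i) =
          if i < m then ∑ j ∈ Finset.range J, w i j else 0 := by
        intro i hi
        rw [Finset.mem_range] at hi
        rw [countP_sum']
        have e2 : ∀ j ∈ Finset.range N, (Multiset.replicate (w i j) (pt i j)).countP
            (fun z => ∀ i, z i < y i) = if i < m ∧ j < J then w i j else 0 := by
          intro j hj
          rw [Finset.mem_range] at hj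
          rw [Multiset.countP_eq_card_filter]
          have e3 : (∀ k, pt i j k < y k) ↔ (i < m ∧ j < J) := by
            rw [Fin.forall_fin_two]
            exact and_congr (hmc i hi) (hJc j hj)
          by_cases hcase : i < m ∧ j < J
          · rw [if_pos hcase, Multiset.filter_eq_self.mpr]
            · simp
            · intro a ha
              rw [Multiset.eq_of_mem_replicate ha]
              exact e3.mpr hcase
          · rw [if_neg hcase, Multiset.filter_eq_nil.mpr]
            · simp
            · intro a ha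
              rw [Multiset.eq_of_mem_replicate ha]
              exact fun hc => hcase (e3.mp hc)
        rw [Finset.sum_congr rfl e2]
        by_cases him : i < m
        · rw [if_pos him]
          simp only [him, true_and]
          rw [← Finset.sum_filter]
          congr 1
          ext j
          simp only [Finset.mem_filter, Finset.mem_range]
          omega
        · rw [if_neg him]
          simp [him]
      rw [Finset.sum_congr rfl e1, ← Finset.sum_filter]
      have e4 : (Finset.range (2 ^ h)).filter (fun i => i < m) = Finset.range m := by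
        ext i
        simp only [Finset.mem_filter, Finset.mem_range]
        omega
      rw [e4]
      push_cast
      refine Finset.sum_congr rfl fun i _ => ?_
      simp_rw [hw]
      exact htel i J
    have hcount' : ((S.countP (fun z => ∀ i, z i < y i) : ℕ) : ℝ) =
        ((∑ i ∈ Finset.range m, g i J : ℤ) : ℝ) := by
      rw [← hcount]; norm_cast
    rw [hcount']
    have h1 := hcorner m hm J
    -- compare the measures
    set T : Set (Fin 2 → ℝ) := {z | ∀ i, z i < y i} with hT
    have hsub1 : A m ∩ B J ⊆ T := by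
      rintro z ⟨hz0, hz1⟩ k
      have hz0' : 1 ≤ m ∧ z 0 ≤ c m := hz0
      have hz1' : 1 ≤ J ∧ z 1 ≤ d J := hz1
      fin_cases k
      · have := (hmc (m-1) (by omega)).mpr (by omega)
        rw [Nat.sub_add_cancel hz0'.1] at this
        exact lt_of_le_of_lt hz0'.2 this
      · have := (hJc (J-1) (by omega)).mpr (by omega)
        rw [Nat.sub_add_cancel hz1'.1] at this
        exact lt_of_le_of_lt hz1'.2 this
    have hsub2 : T ⊆ (A m ∩ B J) ∪ ({z | z 0 ∈ Iio (y 0) \ C0 m} ∪ {z | z 1 ∈ Iio (y 1) \ C1 J}) := by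
      intro z hz
      by_cases ha : z 0 ∈ C0 m
      · by_cases hb : z 1 ∈ C1 J
        · left; exact ⟨ha, hb⟩
        · right; right; exact ⟨hz 1, hb⟩
      · right; left; exact ⟨hz 0, ha⟩
    have h2 : μ.real (A m ∩ B J) ≤ μ.real T := measureReal_mono hsub1
    have h3 : μ.real T ≤ μ.real (A m ∩ B J) + (μ.real {z | z 0 ∈ Iio (y 0) \ C0 m} +
        μ.real {z | z 1 ∈ Iio (y 1) \ C1 J}) :=
      (measureReal_mono hsub2).trans ((measureReal_union_le _ _).trans
        (add_le_add le_rfl (measureReal_union_le _ _)))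
    have h4 : N * μ.real {z | z 0 ∈ Iio (y 0) \ C0 m} ≤ 1 := by
      have := slab ν0 hs0 N (2^h) hN hh c hc1 hc2 hc3 (y 0) m hm hmc
      rw [hν0, map_measureReal_apply hm0 (measurableSet_Iio.diff (hC0m m))] at this
      exact this
    have h5 : N * μ.real {z | z 1 ∈ Iio (y 1) \ C1 J} ≤ 1 := by
      have := slab ν1 hs1 N N hN le_rfl d hd1 hd2 hd3 (y 1) J hJ hJc
      rw [hν1, map_measureReal_apply hm1 (measurableSet_Iio.diff (hC1m J))] at this
      exact this
    have h6 : (μ T).toReal = μ.real T := rfl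
    rw [h6]
    have h1' := abs_le.mp h1
    have h2' := mul_le_mul_of_nonneg_left h2 hNr.le
    have h3' := mul_le_mul_of_nonneg_left h3 hNr.le
    rw [abs_le]
    constructor <;> nlinarith

end Pool.Agent.H460SD
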