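import Pool.Agent.H460SD.Core

namespace Pool.Agent.H460SD

open MeasureTheory Set Filter Topology

theorem cdf_le_one_of (ν : Measure ℝ) [IsProbabilityMeasure ν] (hν : ν (Icc 0 1)ᶜ = 0) :
    ν.real (Iic 1) = 1 := by
  have h1 : ν (Iic 1)ᶜ = 0 := measure_mono_null (fun x hx => by
    simp only [mem_compl_iff, mem_Iic, mem_Icc, not_and_or] at hx ⊢; right; exact hx) hν
  have h2 : ν.real (Iic 1)ᶜ = 0 := by rw [measureReal_def, h1]; rfl
  rw [probReal_compl_eq_one_sub measurableSet_Iic] at h2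
  linarith

theorem quantile (ν : Measure ℝ) [IsProbabilityMeasure ν] (hν : ν (Icc 0 1)ᶜ = 0) (N : ℕ)
    (hN : 0 < N) : ∃ c : ℕ → ℝ, Monotone c ∧ (∀ k, c k ∈ Icc (0:ℝ) 1) ∧ (∀ k, N ≤ k → c k = 1) ∧
      (∀ k, 1 ≤ k → k ≤ N → (k:ℝ) ≤ N * ν.real (Iic (c k))) ∧
      (∀ k, 1 ≤ k → k ≤ N → N * ν.real (Iio (c k)) ≤ k) := by
  classical
  have hNr : (0:ℝ) < N := by exact_mod_cast hN
  let S : ℕ → Set ℝ := fun k => {a | (k:ℝ) ≤ N * ν.real (Iic a)}
  have hfull := cdf_le_one_of ν hν
  have hS1 : ∀ k ≤ N, (1:ℝ) ∈ S k := by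
    intro k hk
    show (k:ℝ) ≤ N * ν.real (Iic 1)
    rw [hfull, mul_one]; exact_mod_cast hk
  have hSlb : ∀ k, 1 ≤ k → ∀ a ∈ S k, 0 ≤ a := by
    intro k hk a ha
    by_contra hneg
    push Not at hneg
    have h0 : ν.real (Iic a) = 0 := by
      rw [measureReal_def, measure_mono_null _ hν]
      · rfl
      · intro x hx
        simp only [mem_Iic, mem_compl_iff, mem_Icc, not_and_or, not_le] at hx ⊢
        left; linarith
    have h1 : (k:ℝ) ≤ N * ν.real (Iic a) := ha
    rw [h0, mul_zero] at h1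
    have : (1:ℝ) ≤ k := by exact_mod_cast hk
    linarith
  have hbdd : ∀ k, 1 ≤ k → BddBelow (S k) := fun k hk => ⟨0, fun a ha => hSlb k hk a ha⟩
  let c : ℕ → ℝ := fun k => if k = 0 then 0 else if N ≤ k then 1 else sInf (S k)
  have hcmid : ∀ k, 1 ≤ k → k < N → c k = sInf (S k) := by
    intro k h1 h2
    simp only [c]
    rw [if_neg (by omega), if_neg (by omega)]
  have hcbig : ∀ k, N ≤ k → c k = 1 := by
    intro k h1
    simp only [c]
    rw [if_neg (by omega), if_pos h1]
  have hc0 : c 0 = 0 := by simp [c]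
  have hcmem : ∀ k, c k ∈ Icc (0:ℝ) 1 := by
    intro k
    rcases Nat.eq_zero_or_pos k with rfl | hk
    · rw [hc0]; exact ⟨le_rfl, zero_le_one⟩
    · rcases le_or_gt N k with h | h
      · rw [hcbig k h]; exact ⟨zero_le_one, le_rfl⟩
      · rw [hcmid k hk h]
        exact ⟨le_csInf ⟨1, hS1 k h.le⟩ (hSlb k hk), csInf_le (hbdd k hk) (hS1 k h.le)⟩
  have hmono : Monotone c := by
    intro k k' hkk
    rcases Nat.eq_zero_or_pos k with rfl | hk
    · rw [hc0]; exact (hcmem k').1
    · rcases le_or_gt N k' with h | h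
      · rw [hcbig k' h]; exact (hcmem k).2
      · rw [hcmid k hk (by omega), hcmid k' (by omega) h]
        refine csInf_le_csInf (hbdd k hk) ⟨1, hS1 k' h.le⟩ ?_
        intro a ha
        have h1 : (k':ℝ) ≤ N * ν.real (Iic a) := ha
        have h2 : (k:ℝ) ≤ k' := by exact_mod_cast hkk
        exact h2.trans h1
  refine ⟨c, hmono, hcmem, hcbig, ?_, ?_⟩
  · intro k hk hkN
    rcases hkN.lt_or_eq with h | h
    · rw [hcmid k hk h]
      have hgt : ∀ x, sInf (S k) < x → (k:ℝ) / N ≤ ProbabilityTheory.cdf ν x := by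
        intro x hx
        obtain ⟨a, ha, hax⟩ := exists_lt_of_csInf_lt ⟨1, hS1 k h.le⟩ hx
        have h1 : (k:ℝ) ≤ N * ν.real (Iic a) := ha
        rw [ProbabilityTheory.cdf_eq_real, div_le_iff₀ hNr]
        have h2 : ν.real (Iic a) ≤ ν.real (Iic x) := measureReal_mono (Iic_subset_Iic.mpr hax.le)
        nlinarith
      have hrc := (ProbabilityTheory.cdf ν).right_continuous (sInf (S k))
      have ht : Tendsto (ProbabilityTheory.cdf ν) (𝓝[>] (sInf (S k)))
        (𝓝 (ProbabilityTheory.cdf ν (sInf (S k)))) := hrc.mono_left (nhdsWithin_mono _ Ioi_subset_Ici_self)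
      have := ge_of_tendsto ht (by
        filter_upwards [self_mem_nhdsWithin] with x hx
        exact hgt x hx)
      rw [ProbabilityTheory.cdf_eq_real, div_le_iff₀ hNr] at this
      linarith
    · rw [hcbig k h.ge, hfull, mul_one, h]
  · intro k hk hkN
    rcases hkN.lt_or_eq with h | h
    · rw [hcmid k hk h]
      have hlt : ∀ x, x < sInf (S k) → ν (Iic x) ≤ ENNReal.ofReal ((k:ℝ) / N) := by
        intro x hx
        have hx' : x ∉ S k := notMem_of_lt_csInf hx (hbdd k hk)
        have h1 : N * ν.real (Iic x) < k := not_le.mp hx'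
        rw [← ofReal_measureReal]
        refine ENNReal.ofReal_le_ofReal ?_
        rw [le_div_iff₀ hNr]; linarith
      have hU : Iio (sInf (S k)) = ⋃ n : ℕ, Iic (sInf (S k) - 1 / ((n:ℝ) + 1)) := by
        ext x
        simp only [mem_Iio, mem_iUnion, mem_Iic]
        constructor
        · intro hx
          obtain ⟨n, hn⟩ := exists_nat_one_div_lt (sub_pos.mpr hx)
          exact ⟨n, by linarith⟩
        · rintro ⟨n, hn⟩
          have : (0:ℝ) < 1 / ((n:ℝ) + 1) := by positivity
          linarith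
      have hle : ν (Iio (sInf (S k))) ≤ ENNReal.ofReal ((k:ℝ) / N) := by
        rw [hU, Monotone.measure_iUnion]
        · refine iSup_le fun n => hlt _ ?_
          have : (0:ℝ) < 1 / ((n:ℝ) + 1) := by positivity
          linarith
        · intro n n' hnn
          refine Iic_subset_Iic.mpr ?_
          have : 1 / ((n':ℝ) + 1) ≤ 1 / ((n:ℝ) + 1) := by
            apply one_div_le_one_div_of_le (by positivity)
            have : (n:ℝ) ≤ n' := by exact_mod_cast hnn
            linarith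
          linarith
      have h2 : ν.real (Iio (sInf (S k))) ≤ (k:ℝ) / N :=
        ENNReal.toReal_le_of_le_ofReal (by positivity) hle
      rw [le_div_iff₀ hNr] at h2
      linarith
    · have h1 : ν.real (Iio (c k)) ≤ 1 := measureReal_le_one
      rw [h] at h1 ⊢
      nlinarith

/-- the mass missed between a threshold and the previous quantile is at most `1` -/
theorem slab (ν : Measure ℝ) [IsProbabilityMeasure ν] (hν : ν (Icc 0 1)ᶜ = 0) (N M : ℕ)
    (hN : 0 < N) (hM : N ≤ M) (c : ℕ → ℝ) (hc1 : ∀ k, N ≤ k → c k = 1)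
    (hc2 : ∀ k, 1 ≤ k → k ≤ N → (k:ℝ) ≤ N * ν.real (Iic (c k)))
    (hc3 : ∀ k, 1 ≤ k → k ≤ N → N * ν.real (Iio (c k)) ≤ k)
    (y : ℝ) (m : ℕ) (hm : m ≤ M) (hmc : ∀ i < M, c (i+1) < y ↔ i < m) :
    N * ν.real (Iio y \ {x | 1 ≤ m ∧ x ≤ c m}) ≤ 1 := by
  have hNr : (0:ℝ) < N := by exact_mod_cast hN
  rcases hm.lt_or_eq with h | h
  · have hy : y ≤ c (m+1) := by
      have := (hmc m h).not.mpr (lt_irrefl _)
      exact not_lt.mp this
    rcases Nat.eq_zero_or_pos m with rfl | hm0
    · have h1 : ν.real (Iio y \ {x | 1 ≤ 0 ∧ x ≤ c 0}) ≤ ν.real (Iio (c 1)) :=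
        measureReal_mono (fun x hx => lt_of_lt_of_le hx.1 hy)
      have h2 := hc3 1 le_rfl hN
      push_cast at h2
      nlinarith
    · have hcm : c m < y := by
        have := (hmc (m-1) (by omega)).mpr (by omega)
        rwa [Nat.sub_add_cancel hm0] at this
      have hmN : m < N := by
        by_contra hc
        push Not at hc
        rw [hc1 (m+1) (by omega)] at hy
        rw [hc1 m hc] at hcm
        linarith
      have hsub : Iio y \ {x | 1 ≤ m ∧ x ≤ c m} ⊆ Iio (c (m+1)) \ Iic (c m) := by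
        intro x hx
        refine ⟨lt_of_lt_of_le hx.1 hy, fun hx2 => hx.2 ⟨hm0, hx2⟩⟩
      have hlt : c m < c (m+1) := lt_of_lt_of_le hcm hy
      have h1 : ν.real (Iio (c (m+1)) \ Iic (c m)) = ν.real (Iio (c (m+1))) - ν.real (Iic (c m)) :=
        measureReal_sdiff (fun x hx => lt_of_le_of_lt hx hlt) measurableSet_Iic
      have h2 := measureReal_mono (μ := ν) hsub
      have h3 := hc2 m hm0 hmN.le
      have h4 := hc3 (m+1) (by omega) hmN
      push_cast at h4
      nlinarith
  · have hc : c m = 1 := hc1 m (by omega)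
    have h1 : ν (Iio y \ {x | 1 ≤ m ∧ x ≤ c m}) = 0 := by
      refine measure_mono_null (fun x hx => ?_) hν
      have h2 : ¬ (1 ≤ m ∧ x ≤ c m) := hx.2
      rw [hc] at h2
      simp only [mem_compl_iff, mem_Icc, not_and_or, not_le]
      right
      by_contra h3
      push Not at h3
      exact h2 ⟨by omega, h3⟩
    have h2 : ν.real (Iio y \ {x | 1 ≤ m ∧ x ≤ c m}) = 0 := by rw [measureReal_def, h1]; rfl
    rw [h2]; norm_num

end Pool.Agent.H460SD
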